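import Pool.Agent.N539.PJ.Lp3

/-!
# Project PJ (helper352), part LP (helper539): few discriminants are divisible by the square of a
large prime
-/

set_option autoImplicit false
set_option linter.all false

open Polynomial
open scoped Classical

namespace Pool.Agent.N539.PJ

open Pool.Agent.N352.PJ

theorem lp (h1 : S_D1) (h2 : S_D2) : S_LP := by
  intro g k _ _ hg hfac r W A hW ε hε
  haveI : CharP k (ringChar k) := ringChar.charP k
  haveI : Fact (ringChar k).Prime := ⟨CharP.char_is_prime k (ringChar k)⟩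
  obtain ⟨p, hp⟩ : ∃ p, p = ringChar k := ⟨_, rfl⟩
  haveI : Fact p.Prime := by rw [hp]; infer_instance
  haveI : CharP k p := by rw [hp]; infer_instance
  have hpp : p.Prime := Fact.out
  have hpg : 2 * g + 1 < p := by
    by_contra hcon
    apply hfac
    rw [CharP.cast_eq_zero_iff k p, hpp.dvd_factorial]
    omega
  have hW0 : W ≠ 0 := hW.ne_zero
  obtain ⟨μ, hμ⟩ : ∃ μ, μ = W.natDegree := ⟨_, rfl⟩
  have hq2 : 2 ≤ Nat.card k := Finite.one_lt_card
  obtain ⟨q, hq⟩ : ∃ q, q = Nat.card k := ⟨_, rfl⟩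
  rw [← hq] at hq2
  obtain ⟨C', hC'⟩ : ∃ C', C' = 4 * g * (4 * g + 2) * (2 * (2 * g + 1)) := ⟨_, rfl⟩
  obtain ⟨K1, hK1⟩ : ∃ K1, K1 = (2 * g - 1) * (2 * g + 1) := ⟨_, rfl⟩
  obtain ⟨K, hK⟩ : ∃ K, K = K1 + (C' * (2 * g) + 2 * g) := ⟨_, rfl⟩
  obtain ⟨n0, hn0⟩ : ∃ n0 : ℕ, (K : ℝ) / ε ≤ n0 := exists_nat_ge _
  refine ⟨p * n0 + p * μ + μ + 1, fun N hN => ?_⟩
  have hN1 : 1 ≤ N := by omega
  have hNp : p * n0 ≤ N := by omega
  have hNμ : p * μ ≤ N := by omega
  have hNμ' : μ ≤ N := by omega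
  obtain ⟨m, hm⟩ : ∃ m, m = N / p := ⟨_, rfl⟩
  have hmn : n0 ≤ m := by
    rw [hm, Nat.le_div_iff_mul_le hpp.pos, mul_comm]
    exact hNp
  have hmN : p * m ≤ N := by rw [hm]; exact Nat.mul_div_le N p
  have hmN' : m ≤ N := by rw [hm]; exact Nat.div_le_self N p
  -- the sets
  obtain ⟨S, hS⟩ : ∃ S : Fin (2 * g) → Finset k[X], S = fun j : Fin (2 * g) =>
    (cls_finite (2 * N * (2 * g + 1 - (j : ℕ))) (r.coeff j) W (A j)).toFinset := ⟨_, rfl⟩
  have hBx : Bx g N r W A = (Fintype.piFinset S : Set (Fin (2 * g) → k[X])) := by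
    ext a
    rw [Finset.mem_coe, Fintype.mem_piFinset, hS]
    simp only [Set.Finite.mem_toFinset]
    rfl
  have hdeg : ∀ a ∈ Fintype.piFinset S, ∀ j : Fin (2 * g),
      (a j).natDegree ≤ 2 * N * (2 * g + 1 - (j : ℕ)) := by
    intro a ha j
    have h3 := Fintype.mem_piFinset.1 ha j
    rw [hS, Set.Finite.mem_toFinset] at h3
    exact h3.1
  have hScard : ∀ j : Fin (2 * g), W.natDegree ≤ 2 * N * (2 * g + 1 - (j : ℕ)) →
      (S j).card = q ^ (2 * N * (2 * g + 1 - (j : ℕ)) - μ) := by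
    intro j hj
    rw [hS]
    simp only
    rw [← Set.ncard_eq_toFinset_card _ (cls_finite _ _ _ _), cls_ncard _ _ _ _ hW0 hj, hq, hμ]
  -- the two coordinates
  obtain ⟨i0, hi0⟩ : ∃ i0 : Fin (2 * g), (i0 : ℕ) = 0 := ⟨⟨0, by omega⟩, rfl⟩
  obtain ⟨i1, hi1⟩ : ∃ i1 : Fin (2 * g), (i1 : ℕ) = 1 := ⟨⟨1, by omega⟩, rfl⟩
  have hup0 : ∀ (a : Fin (2 * g) → k[X]) (y : k[X]),
      (fun j : Fin (2 * g) => if (j : ℕ) = 0 then y else a j) = Function.update a i0 y := by
    intro a y
    funext j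
    by_cases hj : j = i0
    · subst hj
      rw [Function.update_self, if_pos hi0]
    · rw [Function.update_of_ne hj, if_neg]
      intro h
      exact hj (Fin.ext (h.trans hi0.symm))
  have hup1 : ∀ (a : Fin (2 * g) → k[X]) (y : k[X]),
      (fun j : Fin (2 * g) => if (j : ℕ) = 1 then y else a j) = Function.update a i1 y := by
    intro a y
    funext j
    by_cases hj : j = i1
    · subst hj
      rw [Function.update_self, if_pos hi1]
    · rw [Function.update_of_ne hj, if_neg]
      intro h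
      exact hj (Fin.ext (h.trans hi1.symm))
  have hDy : ∀ (a : Fin (2 * g) → k[X]) (y : k[X]), Dy (Function.update a i0 y) = Dy a := by
    intro a y
    unfold Dy
    congr 1
    funext j
    split_ifs with hj
    · rfl
    · rw [Function.update_of_ne]
      intro h
      rw [h] at hj
      exact hj hi0
  have hD2 : ∀ (a : Fin (2 * g) → k[X]) (y : k[X]), D2 (Function.update a i0 y) = D2 a := by
    intro a y
    unfold D2
    rw [hDy]
  have hd0 : 2 * N * (2 * g + 1 - (i0 : ℕ)) = 2 * N * (2 * g + 1) := by rw [hi0, Nat.sub_zero]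
  have hd1 : 2 * N * (2 * g + 1 - (i1 : ℕ)) = 2 * N * (2 * g) := by
    rw [hi1, Nat.add_sub_cancel]
  obtain ⟨d0, hd0'⟩ : ∃ d0, d0 = 2 * N * (2 * g + 1) := ⟨_, rfl⟩
  have hd6 : 6 * N ≤ d0 := by rw [hd0']; nlinarith
  have hd4 : 4 * N ≤ 2 * N * (2 * g) := by nlinarith
  -- the bad sets
  obtain ⟨B, hB⟩ : ∃ B : Finset (Fin (2 * g) → k[X]), B = (Fintype.piFinset S).filter
    (fun a => ∃ P : k[X], Irreducible P ∧ N < P.natDegree ∧ ¬ P ∣ W ∧ P ^ 2 ∣ dis a) := ⟨_, rfl⟩
  have hBn : {a ∈ Bx g N r W A | ∃ P : k[X], Irreducible P ∧ N < P.natDegree ∧ ¬ P ∣ W ∧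
      P ^ 2 ∣ dis a}.ncard = B.card := by
    rw [hBx, hB, ← Set.ncard_coe_finset, Finset.coe_filter]
    rfl
  have hBxn : (Bx g N r W A).ncard = (Fintype.piFinset S).card := by
    rw [hBx, Set.ncard_coe_finset]
  rw [hBn, hBxn]
  obtain ⟨B1, hB1⟩ : ∃ B1 : Finset (Fin (2 * g) → k[X]), B1 = (Fintype.piFinset S).filter
    (fun a => D2 a = 0) := ⟨_, rfl⟩
  obtain ⟨B2, hB2⟩ : ∃ B2 : Finset (Fin (2 * g) → k[X]), B2 = B.filter
    (fun a => D2 a ≠ 0) := ⟨_, rfl⟩
  have hBB : B.card ≤ B1.card + B2.card := by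
    refine (Finset.card_le_card (t := B1 ∪ B2) ?_).trans (Finset.card_union_le _ _)
    intro a ha
    rw [Finset.mem_union, hB1, hB2, Finset.mem_filter, Finset.mem_filter]
    by_cases h0 : D2 a = 0
    · left
      rw [hB, Finset.mem_filter] at ha
      exact ⟨ha.1, h0⟩
    · right
      exact ⟨ha, h0⟩
  -- the first set
  have c1 : B1.card * (S i1).card ≤ K1 * (Fintype.piFinset S).card := by
    refine fib_count S i1 B1 (by rw [hB1]; exact Finset.filter_subset _ _) K1 ?_
    intro a _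
    obtain ⟨e1, e2, e3⟩ := h2 g k k[X] a hg hfac
    have e4 : Dz a ≠ 0 := by
      intro h
      rw [h, coeff_zero] at e2
      exact e2.ne_zero rfl
    refine (Finset.card_le_card (t := (Dz a).roots.toFinset) ?_).trans ?_
    · intro y hy
      rw [Finset.mem_filter, hB1, Finset.mem_filter] at hy
      rw [Multiset.mem_toFinset, mem_roots e4, IsRoot.def, e3, hup1]
      exact hy.2.2
    · refine (Multiset.toFinset_card_le _).trans ((card_roots' _).trans ?_)
      rw [hK1]
      exact e1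
  -- the second set
  obtain ⟨X', hX'⟩ : ∃ X', X' = (S i0).card * (C' * (2 * g)) +
    (2 * g * q ^ (d0 / p + 1)) * q ^ m := ⟨_, rfl⟩
  have hqm : 0 < q ^ m := by positivity
  have hB2s : B2 ⊆ Fintype.piFinset S := by
    rw [hB2, hB]
    exact (Finset.filter_subset _ _).trans (Finset.filter_subset _ _)
  have c2 : B2.card * (S i0).card ≤ (X' / q ^ m) * (Fintype.piFinset S).card := by
    refine fib_count S i0 B2 hB2s _ ?_
    intro a ha
    obtain ⟨e1, ⟨s, hs, e2⟩, e3⟩ := h1 g k[X] a hg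
    rw [Nat.le_div_iff_mul_le hqm]
    by_cases h0 : D2 a = 0
    · have : ((S i0).filter fun y => Function.update a i0 y ∈ B2) = ∅ := by
        rw [Finset.filter_eq_empty_iff]
        intro y _ hy
        rw [hB2, Finset.mem_filter, hD2] at hy
        exact hy.2 h0
      rw [this, Finset.card_empty, zero_mul]
      exact Nat.zero_le _
    · have hunit : IsUnit ((Dy a).coeff (2 * g)) := by
        rw [e2]
        have hu1 : IsUnit (((s : ℤ) : k[X])) := by
          rcases hs with rfl | rfl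
          · simp
          · simp
        refine hu1.mul (IsUnit.pow _ ?_)
        have hc : (2 * (g : k[X]) + 1) = C ((2 * g + 1 : ℕ) : k) := by
          rw [map_natCast]
          push_cast
          ring
        rw [hc, isUnit_C, isUnit_iff_ne_zero]
        intro h
        rw [CharP.cast_eq_zero_iff k p] at h
        exact absurd (Nat.le_of_dvd (by omega) h) (by omega)
      have hnd : (Dy a).natDegree = 2 * g :=
        le_antisymm e1 (le_natDegree_of_ne_zero hunit.ne_zero)
      have hlc : IsUnit (Dy a).leadingCoeff := by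
        rw [leadingCoeff, hnd]
        exact hunit
      have hbd : Bd ((4 * g + 1) * d0) (Dy a) := by
        refine bd_Dy a fun j => (hdeg a ha j).trans ?_
        rw [hd0']
        exact Nat.mul_le_mul_left _ (Nat.sub_le _ _)
      have hone := one_var p hnd (by omega) hlc h0 d0 (r.coeff i0) W (A i0) C' N m (by
          intro δ hδ
          refine (deg_res (hbd.mono (Nat.le_add_right _ _)) (bd_Ed hbd hδ)).trans ?_
          rw [hC', hd0']
          apply le_of_eq
          ring) hmN' (by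
          rw [mul_add, ← hμ]
          omega)
      have hSi0 : S i0 = (cls_finite d0 (r.coeff i0) W (A i0)).toFinset := by
        rw [hS, hd0', ← hd0]
      rw [← hSi0, ← hq, ← hX'] at hone
      rw [mul_comm]
      refine le_trans (Nat.mul_le_mul_left _ (Finset.card_le_card ?_)) hone
      intro y hy
      rw [Finset.mem_filter] at hy ⊢
      refine ⟨hy.1, ?_⟩
      have hy2 := hy.2
      rw [hB2, Finset.mem_filter, hB, Finset.mem_filter] at hy2
      obtain ⟨⟨_, P, hP1, hP2, hP3, hP4⟩, _⟩ := hy2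
      refine ⟨P, hP1, hP2, hP3, ?_⟩
      rw [e3, hup0]
      exact hP4
  -- the sizes
  have hdp : d0 / p ≤ d0 / 3 := Nat.div_le_div_left (by omega) (by norm_num)
  have hS0 : (S i0).card = q ^ (d0 - μ) := by
    rw [hScard i0 (by rw [hd0, ← hd0', ← hμ]; omega), hd0, ← hd0']
  have hS1 : (S i1).card = q ^ (2 * N * (2 * g) - μ) := by
    rw [hScard i1 (by rw [hd1, ← hμ]; omega), hd1]
  have hS0' : q ^ (d0 / p + 1) * q ^ m ≤ (S i0).card := by
    rw [hS0, ← pow_add]
    exact Nat.pow_le_pow_right (by omega) (by omega)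
  have hS1' : q ^ m ≤ (S i1).card := by
    rw [hS1]
    exact Nat.pow_le_pow_right (by omega) (by omega)
  have hS0p : 0 < (S i0).card := by rw [hS0]; positivity
  have t1 : B1.card * q ^ m ≤ K1 * (Fintype.piFinset S).card :=
    (Nat.mul_le_mul_left _ hS1').trans c1
  have t2 : B2.card * q ^ m ≤ (C' * (2 * g) + 2 * g) * (Fintype.piFinset S).card := by
    have e1 : q ^ m * (B2.card * (S i0).card) ≤ X' * (Fintype.piFinset S).card := by
      refine (Nat.mul_le_mul_left _ c2).trans ?_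
      rw [← mul_assoc]
      exact Nat.mul_le_mul_right _ (Nat.mul_div_le _ _)
    have e2 : X' ≤ (C' * (2 * g) + 2 * g) * (S i0).card := by
      rw [hX', mul_assoc (2 * g)]
      refine (Nat.add_le_add_left (Nat.mul_le_mul_left (2 * g) hS0') _).trans (le_of_eq ?_)
      ring
    have e3 : (B2.card * q ^ m) * (S i0).card ≤
        ((C' * (2 * g) + 2 * g) * (Fintype.piFinset S).card) * (S i0).card := by
      calc (B2.card * q ^ m) * (S i0).card = q ^ m * (B2.card * (S i0).card) := by ring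
        _ ≤ (C' * (2 * g) + 2 * g) * (S i0).card * (Fintype.piFinset S).card :=
          e1.trans (Nat.mul_le_mul_right _ e2)
        _ = _ := by ring
    exact Nat.le_of_mul_le_mul_right e3 hS0p
  have t3 : B.card * q ^ m ≤ K * (Fintype.piFinset S).card := by
    rw [hK, add_mul]
    refine (Nat.mul_le_mul_right (q ^ m) hBB).trans ?_
    rw [add_mul]
    exact Nat.add_le_add t1 t2
  have t4 : (K : ℝ) ≤ ε * (q : ℝ) ^ m := by
    rw [div_le_iff₀ hε] at hn0
    have e1 : n0 ≤ q ^ m := by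
      have h3 : m < q ^ m := Nat.lt_pow_self (by omega)
      omega
    have e2 : (n0 : ℝ) ≤ (q : ℝ) ^ m := by exact_mod_cast e1
    have e3 := mul_le_mul_of_nonneg_left e2 hε.le
    linarith
  have t5 : (B.card : ℝ) * (q : ℝ) ^ m ≤ K * ((Fintype.piFinset S).card : ℝ) := by
    exact_mod_cast t3
  have hqr : (0 : ℝ) < (q : ℝ) ^ m := by exact_mod_cast hqm
  have t6 : (B.card : ℝ) * (q : ℝ) ^ m ≤ (ε * ((Fintype.piFinset S).card : ℝ)) * (q : ℝ) ^ m := by
    refine t5.trans ?_
    have h3 := mul_le_mul_of_nonneg_right t4 (Nat.cast_nonneg (Fintype.piFinset S).card : (0 : ℝ) ≤ _)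
    linarith
  exact le_of_mul_le_mul_right t6 hqr

/-- with the superfluous hypothesis of the task -/
theorem lp' (h1 : S_D1) (h2 : S_D2) (_ : S_BX) : S_LP := lp h1 h2

end Pool.Agent.N539.PJ
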