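import Pool.Agent.N352.PJ.Cnt

/-!
# Project PJ, part LP (helper539): derivatives and resultants
-/

set_option autoImplicit false
set_option linter.all false

open Polynomial
open scoped Classical

namespace Pool.Agent.N539.PJ

open Pool.Agent.N352.PJ

section alg

variable {k : Type} [Field k]

/-- the derivative of the coefficients -/
noncomputable def dt (f : k[X][X]) : k[X][X] := f.sum fun i c => monomial i (derivative c)

theorem dt_coeff (f : k[X][X]) (i : ℕ) : (dt f).coeff i = derivative (f.coeff i) := by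
  unfold dt
  rw [sum_def, finset_sum_coeff]
  simp only [coeff_monomial]
  rw [Finset.sum_ite_eq']
  split_ifs with h
  · rfl
  · rw [notMem_support_iff.1 h, derivative_zero]

theorem dt_add (f g : k[X][X]) : dt (f + g) = dt f + dt g := by
  ext1 i
  rw [coeff_add, dt_coeff, dt_coeff, dt_coeff, coeff_add, derivative_add]

theorem dt_monomial (n : ℕ) (c : k[X]) : dt (monomial n c) = monomial n (derivative c) := by
  ext1 i
  rw [dt_coeff, coeff_monomial, coeff_monomial]
  split_ifs
  · rfl
  · rw [derivative_zero]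

theorem dt_natDegree (f : k[X][X]) : (dt f).natDegree ≤ f.natDegree := by
  rw [natDegree_le_iff_coeff_eq_zero]
  intro n hn
  rw [dt_coeff, coeff_eq_zero_of_natDegree_lt hn, derivative_zero]

theorem der_eval (f : k[X][X]) (y : k[X]) : derivative (f.eval y) =
    (dt f).eval y + (derivative f).eval y * derivative y := by
  induction f using Polynomial.induction_on' with
  | add f g hf hg =>
    rw [eval_add, derivative_add, hf, hg, dt_add, eval_add, derivative_add, eval_add]
    ring
  | monomial n c =>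
    rw [dt_monomial, eval_monomial, eval_monomial, derivative_mul, derivative_monomial,
      eval_monomial, derivative_pow]
    simp only [map_natCast]
    ring

/-- the polynomial `∂_t f + δ f'` -/
noncomputable def Ed (f : k[X][X]) (δ : k[X]) : k[X][X] := dt f + C δ * derivative f

theorem Ed_natDegree (f : k[X][X]) (δ : k[X]) : (Ed f δ).natDegree ≤ f.natDegree := by
  unfold Ed
  refine (natDegree_add_le _ _).trans (max_le (dt_natDegree f) ?_)
  refine (natDegree_C_mul_le _ _).trans ((natDegree_derivative_le f).trans (Nat.sub_le _ _))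

theorem dvd_pair {P y : k[X]} {f : k[X][X]} (h : P ^ 2 ∣ f.eval y) :
    P ∣ f.eval y ∧ P ∣ (Ed f (derivative y)).eval y := by
  refine ⟨(dvd_pow_self P two_ne_zero).trans h, ?_⟩
  have e : (Ed f (derivative y)).eval y = derivative (f.eval y) := by
    rw [der_eval]
    unfold Ed
    rw [eval_add, eval_mul, eval_C]
    ring
  rw [e]
  obtain ⟨v, hv⟩ := h
  rw [hv, derivative_mul, derivative_pow]
  refine dvd_add ?_ ?_
  · refine ⟨C (((2 : ℕ) : k)) * derivative P * v, ?_⟩
    simp only [map_natCast]
    push_cast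
    ring
  · exact (dvd_pow_self P two_ne_zero).mul_right _

theorem dvd_res {f E : k[X][X]} {m n : ℕ} (hf : f.natDegree ≤ m) (hE : E.natDegree ≤ n)
    (H : m ≠ 0 ∨ n ≠ 0) {P y : k[X]} (h1 : P ∣ f.eval y) (h2 : P ∣ E.eval y) :
    P ∣ resultant f E m n := by
  obtain ⟨p, q, _, _, e⟩ := exists_mul_add_mul_eq_C_resultant f E hf hE H
  have h := congrArg (eval y) e
  rw [eval_add, eval_mul, eval_mul, eval_C] at h
  rw [← h]
  exact dvd_add (h1.mul_right _) (h2.mul_right _)

/-- few values of `δ` are exceptional -/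
theorem bad_delta {f : k[X][X]} {m : ℕ} (hm : f.natDegree = m) (h0 : f ≠ 0)
    (hr : resultant f (derivative f) m (m - 1) ≠ 0) :
    {δ : k[X] | resultant f (Ed f δ) m m = 0}.Finite ∧
      {δ : k[X] | resultant f (Ed f δ) m m = 0}.ncard ≤ m := by
  let L := AlgebraicClosure (FractionRing k[X])
  let φ : k[X] →+* L := (algebraMap (FractionRing k[X]) L).comp (algebraMap k[X] (FractionRing k[X]))
  have hφ : Function.Injective φ :=
    (algebraMap (FractionRing k[X]) L).injective.comp (IsFractionRing.injective k[X] _)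
  obtain ⟨F, hF⟩ : ∃ F : L[X], F = f.map φ := ⟨_, rfl⟩
  have hFd : F.natDegree = m := by rw [hF, natDegree_map_eq_of_injective hφ, hm]
  have hF0 : F ≠ 0 := by rw [hF]; exact (Polynomial.map_ne_zero_iff hφ).2 h0
  have hspl : F.Splits := IsAlgClosed.splits F
  have hder : ∀ ρ ∈ F.roots, ((derivative f).map φ).eval ρ ≠ 0 := by
    intro ρ hρ h
    apply hr
    apply hφ
    rw [map_zero, ← resultant_map_map, ← hF, ← hFd]
    rw [resultant_eq_prod_eval F ((derivative f).map φ) (F.natDegree - 1) _ hspl]
    · rw [mul_eq_zero]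
      right
      rw [Multiset.prod_eq_zero_iff, Multiset.mem_map]
      exact ⟨ρ, hρ, h⟩
    · refine natDegree_map_le.trans ?_
      rw [hFd, ← hm]
      exact natDegree_derivative_le f
  have hex : ∀ δ ∈ {δ : k[X] | resultant f (Ed f δ) m m = 0},
      ∃ ρ ∈ F.roots, ((Ed f δ).map φ).eval ρ = 0 := by
    intro δ hδ
    have h1 : resultant F ((Ed f δ).map φ) F.natDegree m = 0 := by
      rw [hFd, hF, resultant_map_map, hδ, map_zero]
    rw [resultant_eq_prod_eval F _ m _ hspl, mul_eq_zero] at h1
    · rcases h1 with h1 | h1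
      · exact absurd h1 (pow_ne_zero _ (leadingCoeff_ne_zero.2 hF0))
      · rw [Multiset.prod_eq_zero_iff, Multiset.mem_map] at h1
        exact h1
    · refine natDegree_map_le.trans ?_
      rw [← hm]
      exact Ed_natDegree f δ
  choose! ρ hρ1 hρ2 using hex
  have hmaps : ∀ δ ∈ {δ : k[X] | resultant f (Ed f δ) m m = 0}, ρ δ ∈ (F.roots.toFinset : Set L) := by
    intro δ hδ
    rw [Finset.mem_coe, Multiset.mem_toFinset]
    exact hρ1 δ hδ
  have hinj : Set.InjOn ρ {δ : k[X] | resultant f (Ed f δ) m m = 0} := by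
    intro δ hδ δ' hδ' h
    have e1 := hρ2 δ hδ
    have e2 := hρ2 δ' hδ'
    unfold Ed at e1 e2
    rw [Polynomial.map_add, Polynomial.map_mul, map_C, eval_add, eval_mul, eval_C] at e1 e2
    rw [← h] at e2
    have e3 : (φ δ - φ δ') * ((derivative f).map φ).eval (ρ δ) = 0 := by
      linear_combination e1 - e2
    rcases mul_eq_zero.1 e3 with e4 | e4
    · exact hφ (sub_eq_zero.1 e4)
    · exact absurd e4 (hder _ (hρ1 δ hδ))
  have hfin : (F.roots.toFinset : Set L).Finite := Finset.finite_toSet _
  refine ⟨Set.Finite.of_injOn hmaps hinj hfin, ?_⟩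
  refine (Set.ncard_le_ncard_of_injOn ρ hmaps hinj hfin).trans ?_
  rw [Set.ncard_coe_finset]
  refine (Multiset.toFinset_card_le _).trans ((card_roots' F).trans hFd.le)

/-! ### Degrees in `t` -/

/-- all coefficients have degree at most `b` -/
def Bd (b : ℕ) (f : k[X][X]) : Prop := ∀ i, (f.coeff i).natDegree ≤ b

theorem Bd.mono {b c : ℕ} {f : k[X][X]} (h : Bd b f) (hbc : b ≤ c) : Bd c f :=
  fun i => (h i).trans hbc

theorem bd_zero (b : ℕ) : Bd b (0 : k[X][X]) := fun i => by simp

theorem Bd.add {b : ℕ} {f g : k[X][X]} (hf : Bd b f) (hg : Bd b g) : Bd b (f + g) := by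
  intro i
  rw [coeff_add]
  exact (natDegree_add_le _ _).trans (max_le (hf i) (hg i))

theorem Bd.mul {b c : ℕ} {f g : k[X][X]} (hf : Bd b f) (hg : Bd c g) : Bd (b + c) (f * g) := by
  intro i
  rw [coeff_mul]
  refine natDegree_sum_le_of_forall_le _ _ fun p _ => ?_
  exact natDegree_mul_le.trans (Nat.add_le_add (hf _) (hg _))

theorem bd_C {b : ℕ} {c : k[X]} (h : c.natDegree ≤ b) : Bd b (C c) := by
  intro i
  rw [coeff_C]
  split_ifs
  · exact h
  · simp

theorem bd_X (b : ℕ) : Bd b (X : k[X][X]) := by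
  intro i
  rw [coeff_X]
  split_ifs <;> simp

theorem bd_one (b : ℕ) : Bd b (1 : k[X][X]) := by
  rw [← C_1]
  exact bd_C (by simp)

theorem bd_natCast (b n : ℕ) : Bd b ((n : k[X][X])) := by
  rw [← C_eq_natCast]
  exact bd_C (by simp)

theorem bd_intCast (b : ℕ) (n : ℤ) : Bd b ((n : k[X][X])) := by
  rw [← C_eq_intCast]
  exact bd_C (by simp)

theorem bd_sum {ι : Type*} {b : ℕ} (s : Finset ι) (f : ι → k[X][X]) (h : ∀ i ∈ s, Bd b (f i)) :
    Bd b (∑ i ∈ s, f i) := by
  induction s using Finset.induction_on with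
  | empty => exact bd_zero b
  | insert a s ha ih =>
    rw [Finset.sum_insert ha]
    exact (h a (Finset.mem_insert_self _ _)).add (ih fun i hi => h i (Finset.mem_insert_of_mem hi))

theorem bd_prod {ι : Type*} {b : ℕ} (s : Finset ι) (f : ι → k[X][X]) (h : ∀ i ∈ s, Bd b (f i)) :
    Bd (s.card * b) (∏ i ∈ s, f i) := by
  induction s using Finset.induction_on with
  | empty => simpa using bd_one (0 * b)
  | insert a s ha ih =>
    rw [Finset.prod_insert ha, Finset.card_insert_of_notMem ha]
    refine ((h a (Finset.mem_insert_self _ _)).mul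
      (ih fun i hi => h i (Finset.mem_insert_of_mem hi))).mono ?_
    rw [add_mul, one_mul, add_comm]

theorem bd_det {n b : ℕ} (M : Matrix (Fin n) (Fin n) k[X][X]) (h : ∀ i j, Bd b (M i j)) :
    Bd (n * b) M.det := by
  rw [Matrix.det_apply']
  refine bd_sum _ _ fun σ _ => ?_
  have h1 := (bd_intCast (k := k) 0 ((Equiv.Perm.sign σ : ℤˣ) : ℤ)).mul
    (bd_prod Finset.univ (fun i => M (σ i) i) fun i _ => h _ _)
  rw [zero_add, Finset.card_univ, Fintype.card_fin] at h1
  exact h1

theorem deg_det {n b : ℕ} (M : Matrix (Fin n) (Fin n) k[X]) (h : ∀ i j, (M i j).natDegree ≤ b) :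
    M.det.natDegree ≤ n * b := by
  rw [Matrix.det_apply']
  refine natDegree_sum_le_of_forall_le _ _ fun σ _ => ?_
  refine natDegree_mul_le.trans ?_
  rw [natDegree_intCast, zero_add]
  refine (natDegree_prod_le _ _).trans ?_
  refine (Finset.sum_le_sum fun i _ => h (σ i) i).trans ?_
  simp

theorem deg_res {f g : k[X][X]} {b m n : ℕ} (hf : Bd b f) (hg : Bd b g) :
    (resultant f g m n).natDegree ≤ (m + n) * b := by
  unfold resultant
  refine deg_det _ fun i j => ?_
  unfold sylvester
  rw [Matrix.of_apply]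
  refine Fin.addCases (fun j₁ => ?_) (fun j₁ => ?_) j
  · rw [Fin.addCases_left]
    split_ifs
    · exact hg _
    · simp
  · rw [Fin.addCases_right]
    split_ifs
    · exact hf _
    · simp

/-- the degree in `t` of `Dy` -/
theorem bd_Dy {g b : ℕ} (a : Fin (2 * g) → k[X]) (h : ∀ j, (a j).natDegree ≤ b) :
    Bd ((4 * g + 1) * b) (Dy a) := by
  unfold Dy dis
  generalize hc : (fun j : Fin (2 * g) => if (j : ℕ) = 0 then (X : k[X][X]) else C (a j)) = c
  have hcb : ∀ j, Bd b (c j) := by
    intro j
    rw [← hc]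
    dsimp only
    split_ifs
    · exact bd_X b
    · exact bd_C (h j)
  have hpol : ∀ i, Bd b ((pol c).coeff i) := by
    intro i
    unfold pol
    rw [coeff_add, coeff_X_pow, finset_sum_coeff]
    refine Bd.add ?_ (bd_sum _ _ fun j _ => ?_)
    · split_ifs
      · exact bd_one b
      · exact bd_zero b
    · rw [coeff_C_mul_X_pow]
      split_ifs
      · exact hcb j
      · exact bd_zero b
  have hder : ∀ i, Bd b ((derivative (pol c)).coeff i) := by
    intro i
    rw [coeff_derivative]
    have e : (((i : ℕ) : k[X][X]) + 1) = ((i + 1 : ℕ) : k[X][X]) := by push_cast; ring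
    rw [e]
    have h1 := (hpol (i + 1)).mul (bd_natCast (k := k) 0 (i + 1))
    rwa [add_zero] at h1
  unfold resultant
  have h1 := bd_det (sylvester (pol c) (derivative (pol c)) (2 * g + 1) (2 * g)) (b := b) (by
    intro i j
    unfold sylvester
    rw [Matrix.of_apply]
    refine Fin.addCases (fun j₁ => ?_) (fun j₁ => ?_) j
    · rw [Fin.addCases_left]
      split_ifs
      · exact hder _
      · exact bd_zero b
    · rw [Fin.addCases_right]
      split_ifs
      · exact hpol _
      · exact bd_zero b)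
  refine h1.mono (le_of_eq ?_)
  ring

theorem bd_Ed {f : k[X][X]} {b : ℕ} (hf : Bd b f) {δ : k[X]} {c : ℕ} (hδ : δ.natDegree ≤ c) :
    Bd (b + c) (Ed f δ) := by
  unfold Ed
  refine Bd.add ?_ ?_
  · intro i
    rw [dt_coeff]
    exact (natDegree_derivative_le _).trans ((Nat.sub_le _ _).trans ((hf i).trans (Nat.le_add_right _ _)))
  · have h1 : Bd b (derivative f) := by
      intro i
      rw [coeff_derivative]
      have e : (((i : ℕ) : k[X]) + 1) = ((i + 1 : ℕ) : k[X]) := by push_cast; ring
      rw [e]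
      refine natDegree_mul_le.trans ?_
      rw [natDegree_natCast, add_zero]
      exact hf _
    have h2 := (bd_C hδ).mul h1
    rwa [add_comm] at h2

end alg

end Pool.Agent.N539.PJ
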