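import Pool.Agent.N539.PJ.Lp1

/-!
# Project PJ, part LP (helper539): counting in one variable

The lemmas `lt_ncard`, ..., `cls_ncard` are those of helper916 (`Pool/Agent/N916/PP/FamA.lean`).
-/

set_option autoImplicit false
set_option linter.all false

open Polynomial
open scoped Classical

namespace Pool.Agent.N539.PJ

open Pool.Agent.N352.PJ

section cnt

variable {k : Type} [Field k] [Finite k]

/-- polynomials of degree less than `n` in the class of `r` modulo `M` -/
def lt0 (n : ℕ) (M r : k[X]) : Set k[X] := {f | f.degree < n ∧ M ∣ f - r}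

/-- polynomials of degree at most `n` with prescribed coefficient at `n` in the class of `r` -/
def cls (n : ℕ) (c : k) (M r : k[X]) : Set k[X] := {f | f.natDegree ≤ n ∧ f.coeff n = c ∧ M ∣ f - r}

theorem lt_ncard (n : ℕ) : {f : k[X] | f.degree < n}.ncard = Nat.card k ^ n ∧
    {f : k[X] | f.degree < n}.Finite := by
  have e : {f : k[X] | f.degree < n} = (degreeLT k n : Set k[X]) := by
    ext f
    simp [mem_degreeLT]
  have hfin : Finite (degreeLT k n) := Finite.of_equiv _ (degreeLTEquiv k n).symm.toEquiv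
  rw [e]
  refine ⟨?_, hfin⟩
  rw [← Nat.card_coe_set_eq]
  show Nat.card (degreeLT k n) = _
  rw [Nat.card_congr (degreeLTEquiv k n).toEquiv, Nat.card_pi]
  simp

theorem lt0_finite (n : ℕ) (M r : k[X]) : (lt0 n M r).Finite :=
  (lt_ncard (k := k) n).2.subset fun f hf => hf.1

theorem lt0_ncard (n : ℕ) (M r : k[X]) (hM : M.Monic) (h : M.natDegree ≤ n) :
    (lt0 n M r).ncard = Nat.card k ^ (n - M.natDegree) := by
  rw [← (lt_ncard (k := k) (n - M.natDegree)).1]
  symm
  refine Set.ncard_congr (fun g _ => r %ₘ M + M * g) ?_ ?_ ?_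
  · intro g hg
    simp only [Set.mem_ofPred_eq] at hg
    constructor
    · refine lt_of_le_of_lt (degree_add_le _ _) (max_lt ?_ ?_)
      · refine lt_of_lt_of_le (degree_modByMonic_lt r hM) ?_
        rw [degree_eq_natDegree hM.ne_zero]
        exact_mod_cast h
      · rw [degree_mul, degree_eq_natDegree hM.ne_zero]
        by_cases hg0 : g = 0
        · subst hg0
          simp
        · rw [degree_eq_natDegree hg0] at hg ⊢
          have hg' : g.natDegree < n - M.natDegree := by exact_mod_cast hg
          have : M.natDegree + g.natDegree < n := by omega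
          exact_mod_cast this
    · have h1 := modByMonic_add_div r M
      refine ⟨g - r /ₘ M, ?_⟩
      have : r = r %ₘ M + M * (r /ₘ M) := h1.symm
      calc r %ₘ M + M * g - r = r %ₘ M + M * g - (r %ₘ M + M * (r /ₘ M)) := by rw [← this]
        _ = M * (g - r /ₘ M) := by ring
  · intro g g' _ _ h1
    have : M * (g - g') = 0 := by linear_combination h1
    rcases mul_eq_zero.1 this with h2 | h2
    · exact absurd h2 hM.ne_zero
    · exact sub_eq_zero.1 h2
  · intro f hf
    obtain ⟨h1, t, ht⟩ := hf
    have h2 := modByMonic_add_div r M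
    have hMg : r %ₘ M + M * (r /ₘ M + t) = f := by
      calc r %ₘ M + M * (r /ₘ M + t) = (r %ₘ M + M * (r /ₘ M)) + M * t := by ring
        _ = r + (f - r) := by rw [h2, ← ht]
        _ = f := by ring
    refine ⟨r /ₘ M + t, ?_, hMg⟩
    simp only [Set.mem_ofPred_eq]
    by_cases hg0 : r /ₘ M + t = 0
    · rw [hg0]; simp
    have h3 : (M * (r /ₘ M + t)).degree < n := by
      have e : M * (r /ₘ M + t) = f - r %ₘ M := by rw [← hMg]; ring
      rw [e]
      refine lt_of_le_of_lt (degree_sub_le _ _) (max_lt h1 ?_)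
      refine lt_of_lt_of_le (degree_modByMonic_lt r hM) ?_
      rw [degree_eq_natDegree hM.ne_zero]
      exact_mod_cast h
    rw [degree_mul, degree_eq_natDegree hM.ne_zero, degree_eq_natDegree hg0] at h3
    rw [degree_eq_natDegree hg0]
    have h4 : M.natDegree + (r /ₘ M + t).natDegree < n := by exact_mod_cast h3
    have h5 : (r /ₘ M + t).natDegree < n - M.natDegree := by omega
    exact_mod_cast h5

theorem cls_eq (n : ℕ) (c : k) (M r : k[X]) :
    cls n c M r = (fun f => f + C c * X ^ n) '' lt0 n M (r - C c * X ^ n) := by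
  ext f
  simp only [cls, lt0, Set.mem_image, Set.mem_ofPred_eq]
  constructor
  · rintro ⟨h1, h2, h3⟩
    refine ⟨f - C c * X ^ n, ⟨?_, ?_⟩, by ring⟩
    · rw [degree_lt_iff_coeff_zero]
      intro m hm
      rw [coeff_sub, coeff_C_mul_X_pow]
      rcases eq_or_lt_of_le hm with rfl | h
      · simp [h2]
      · rw [coeff_eq_zero_of_natDegree_lt (lt_of_le_of_lt h1 h), if_neg (by omega), sub_zero]
    · convert h3 using 1
      ring
  · rintro ⟨g, ⟨h1, h2⟩, rfl⟩
    refine ⟨?_, ?_, ?_⟩
    · refine natDegree_add_le_of_degree_le ?_ (natDegree_C_mul_X_pow_le c n)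
      rw [natDegree_le_iff_degree_le]
      exact h1.le
    · rw [coeff_add, coeff_C_mul_X_pow, if_pos rfl, (degree_lt_iff_coeff_zero _ _).1 h1 n le_rfl,
        zero_add]
    · convert h2 using 1
      ring

theorem cls_finite (n : ℕ) (c : k) (M r : k[X]) : (cls n c M r).Finite := by
  rw [cls_eq]
  exact (lt0_finite n M _).image _

theorem cls_ncard' (n : ℕ) (c : k) (M r : k[X]) :
    (cls n c M r).ncard = (lt0 n M (r - C c * X ^ n)).ncard := by
  rw [cls_eq, Set.ncard_image_of_injective]
  intro f g h
  simpa using h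

theorem cls_ncard (n : ℕ) (c : k) (M r : k[X]) (hM : M ≠ 0) (h : M.natDegree ≤ n) :
    (cls n c M r).ncard = Nat.card k ^ (n - M.natDegree) := by
  have hl : M.leadingCoeff ≠ 0 := leadingCoeff_ne_zero.2 hM
  have hu : IsUnit (C M.leadingCoeff⁻¹ : k[X]) :=
    isUnit_C.2 (isUnit_iff_ne_zero.2 (inv_ne_zero hl))
  have e : cls n c M r = cls n c (M * C M.leadingCoeff⁻¹) r := by
    ext f
    unfold cls
    simp only [Set.mem_ofPred_eq, hu.mul_right_dvd]
  rw [e, cls_ncard', lt0_ncard n _ _ (monic_mul_leadingCoeff_inv hM)]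
  · rw [natDegree_mul_C (inv_ne_zero hl)]
  · rw [natDegree_mul_C (inv_ne_zero hl)]
    exact h

variable (p : ℕ) [hp : Fact p.Prime] [CharP k p]

/-- polynomials with given derivative -/
theorem der_fib (d : ℕ) (δ : k[X]) (S : Finset k[X])
    (hS : ∀ y ∈ S, y.natDegree ≤ d ∧ derivative y = δ) : S.card ≤ Nat.card k ^ (d / p + 1) := by
  haveI := Fintype.ofFinite k
  have h1 : S.card ≤ (Finset.univ : Finset (Fin (d / p + 1) → k)).card := by
    refine Finset.card_le_card_of_injOn (fun y i => y.coeff (p * i)) (fun y _ => by simp) ?_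
    intro y hy y' hy' h
    obtain ⟨h1, h2⟩ := hS y hy
    obtain ⟨h1', h2'⟩ := hS y' hy'
    ext n
    by_cases hn : d < n
    · rw [coeff_eq_zero_of_natDegree_lt (by omega), coeff_eq_zero_of_natDegree_lt (by omega)]
    by_cases hpn : p ∣ n
    · obtain ⟨i, rfl⟩ := hpn
      have hi : i < d / p + 1 := by
        have : i ≤ d / p := (Nat.le_div_iff_mul_le hp.out.pos).2 (by rw [mul_comm]; omega)
        omega
      exact congrFun h ⟨i, hi⟩
    · have hn0 : n ≠ 0 := fun h => hpn (by rw [h]; exact dvd_zero p)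
      obtain ⟨m, rfl⟩ : ∃ m, n = m + 1 := ⟨n - 1, by omega⟩
      have h3 : (derivative y).coeff m = (derivative y').coeff m := by rw [h2, h2']
      rw [coeff_derivative, coeff_derivative] at h3
      have h4 : ((m : k) + 1) ≠ 0 := by
        intro h5
        apply hpn
        rw [← CharP.cast_eq_zero_iff k p]
        push_cast
        exact h5
      exact mul_right_cancel₀ h4 h3
  rw [Finset.card_univ, Fintype.card_fun, Fintype.card_fin, ← Nat.card_eq_fintype_card] at h1
  exact h1

/-- few `h` give a value divisible by `P` -/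
theorem root_bound {f : k[X][X]} {n : ℕ} (hn : f.natDegree = n) (hu : IsUnit f.leadingCoeff)
    {P W y : k[X]} (hP : Irreducible P) (hW : ¬ P ∣ W) {m : ℕ} (hm : m ≤ P.natDegree)
    (H : Finset k[X]) (hH : ∀ h ∈ H, h.degree < m) :
    (H.filter fun h => P ∣ f.eval (y + (W * h) ^ p)).card ≤ n := by
  haveI : (Ideal.span {P}).IsPrime := (Ideal.span_singleton_prime hP.ne_zero).2 hP.prime
  obtain ⟨F, hF⟩ : ∃ F, F = f.map (Ideal.Quotient.mk (Ideal.span {P})) := ⟨_, rfl⟩
  have hF0 : F ≠ 0 := by
    intro h
    have h1 : F.coeff f.natDegree = 0 := by rw [h, coeff_zero]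
    rw [hF, coeff_map] at h1
    exact ((hu.map (Ideal.Quotient.mk (Ideal.span {P}))).ne_zero) h1
  have h1 : (H.filter fun h => P ∣ f.eval (y + (W * h) ^ p)).card ≤ F.roots.toFinset.card := by
    refine Finset.card_le_card_of_injOn
      (fun h => Ideal.Quotient.mk (Ideal.span {P}) (y + (W * h) ^ p)) ?_ ?_
    · intro h hh
      rw [Finset.mem_coe, Finset.mem_filter] at hh
      simp only [Finset.mem_coe, Multiset.mem_toFinset]
      rw [mem_roots hF0, IsRoot.def, hF, eval_map_apply, Ideal.Quotient.eq_zero_iff_dvd]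
      exact hh.2
    · intro h hh h' hh' e
      rw [Finset.mem_coe, Finset.mem_filter] at hh hh'
      simp only at e
      rw [Ideal.Quotient.mk_eq_mk_iff_sub_mem, Ideal.mem_span_singleton] at e
      have e1 : y + (W * h) ^ p - (y + (W * h') ^ p) = (W * (h - h')) ^ p := by
        rw [mul_sub, sub_pow_char]
        ring
      rw [e1] at e
      have e2 := (hP.prime.dvd_mul.1 (hP.prime.dvd_of_dvd_pow e)).resolve_left hW
      by_contra hne
      have hne' : h - h' ≠ 0 := sub_ne_zero.2 hne
      have e3 := natDegree_le_of_dvd e2 hne'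
      have e4 : (h - h').degree < m :=
        lt_of_le_of_lt (degree_sub_le _ _) (max_lt (hH h hh.1) (hH h' hh'.1))
      rw [degree_eq_natDegree hne'] at e4
      have e5 : (h - h').natDegree < m := by exact_mod_cast e4
      omega
  refine h1.trans ((Multiset.toFinset_card_le _).trans ((card_roots' F).trans ?_))
  rw [hF, ← hn]
  exact natDegree_map_le

omit [Finite k] in
/-- few large primes divide a nonzero polynomial -/
theorem prime_bound {R : k[X]} (hR : R ≠ 0) {C' N : ℕ} (hd : R.natDegree ≤ C' * N) :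
    ∃ T : Finset k[X], T.card ≤ C' ∧ ∀ P : k[X], Irreducible P → N < P.natDegree → P ∣ R →
      ∃ Q ∈ T, Associated P Q := by
  refine ⟨(UniqueFactorizationMonoid.normalizedFactors R).toFinset.filter
    (fun Q => N < Q.natDegree), ?_, ?_⟩
  · set T := (UniqueFactorizationMonoid.normalizedFactors R).toFinset.filter
      (fun Q => N < Q.natDegree) with hT
    have h1 : (∏ Q ∈ T, Q) ∣ R := by
      have h2 : T.val ≤ UniqueFactorizationMonoid.normalizedFactors R := by
        rw [hT, Finset.filter_val, Multiset.toFinset_val]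
        exact (Multiset.filter_le _ _).trans (Multiset.dedup_le _)
      have h3 := Multiset.prod_dvd_prod_of_le h2
      have h4 := UniqueFactorizationMonoid.prod_normalizedFactors hR
      have h5 : (∏ Q ∈ T, Q) = T.val.prod := by
        rw [Finset.prod_eq_multiset_prod, Multiset.map_id']
      rw [h5]
      exact h3.trans h4.dvd
    have hT0 : ∀ Q ∈ T, Q ≠ 0 := by
      intro Q hQ
      rw [hT, Finset.mem_filter] at hQ
      rintro rfl
      simp at hQ
    have h2 := natDegree_le_of_dvd h1 hR
    rw [natDegree_prod _ _ hT0] at h2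
    have h3 : T.card * (N + 1) ≤ ∑ Q ∈ T, Q.natDegree := by
      rw [← smul_eq_mul, ← Finset.sum_const]
      refine Finset.sum_le_sum fun Q hQ => ?_
      rw [hT, Finset.mem_filter] at hQ
      exact hQ.2
    by_contra hcon
    push Not at hcon
    have h4 : (C' + 1) * (N + 1) ≤ T.card * (N + 1) := Nat.mul_le_mul_right _ hcon
    nlinarith
  · intro P hP hN hPR
    obtain ⟨Q, hQ, hPQ⟩ := UniqueFactorizationMonoid.exists_mem_normalizedFactors_of_dvd hR hP hPR
    refine ⟨Q, ?_, hPQ⟩
    rw [Finset.mem_filter, Multiset.mem_toFinset]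
    refine ⟨hQ, ?_⟩
    rwa [← natDegree_eq_of_degree_eq (degree_eq_degree_of_associated hPQ)]

end cnt

end Pool.Agent.N539.PJ
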