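import Pool.Agent.N539.PJ.Lp2

/-!
# Project PJ, part LP (helper539): the method of Poonen in one variable
-/

set_option autoImplicit false
set_option linter.all false

open Polynomial
open scoped Classical

namespace Pool.Agent.N539.PJ

open Pool.Agent.N352.PJ

section one

variable {k : Type} [Field k]

/-- the bad values -/
def Bv (N : ℕ) (W : k[X]) (f : k[X][X]) (y : k[X]) : Prop :=
  ∃ P : k[X], Irreducible P ∧ N < P.natDegree ∧ ¬ P ∣ W ∧ P ^ 2 ∣ f.eval y

variable [Finite k] (p : ℕ) [hp : Fact p.Prime] [CharP k p]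

theorem der_shift (y v : k[X]) : derivative (y + v ^ p) = derivative y := by
  rw [derivative_add, derivative_pow, CharP.cast_eq_zero, C_0, zero_mul, zero_mul, add_zero]

theorem shift_mem {d : ℕ} {c : k} {W r y h : k[X]} {m : ℕ} (hy : y ∈ cls d c W r)
    (hh : h.degree < m) (hmd : p * (W.natDegree + m) < d) : y + (W * h) ^ p ∈ cls d c W r := by
  obtain ⟨h1, h2, h3⟩ := hy
  have hdeg : ((W * h) ^ p).natDegree < d := by
    refine lt_of_le_of_lt natDegree_pow_le (lt_of_le_of_lt (Nat.mul_le_mul_left _ ?_) hmd)
    refine natDegree_mul_le.trans (Nat.add_le_add_left ?_ _)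
    exact natDegree_le_of_degree_le hh.le
  refine ⟨?_, ?_, ?_⟩
  · exact (natDegree_add_le _ _).trans (max_le h1 hdeg.le)
  · rw [coeff_add, h2, coeff_eq_zero_of_natDegree_lt hdeg, add_zero]
  · have e : y + (W * h) ^ p - r = (y - r) + (W * h) ^ p := by ring
    rw [e]
    exact dvd_add h3 ((dvd_mul_right W h).trans (dvd_pow_self _ hp.out.ne_zero))

theorem shift_mem' {d : ℕ} {c : k} {W r y h : k[X]} {m : ℕ} (hy : y ∈ cls d c W r)
    (hh : h.degree < m) (hmd : p * (W.natDegree + m) < d) : y - (W * h) ^ p ∈ cls d c W r := by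
  obtain ⟨h1, h2, h3⟩ := hy
  have hdeg : ((W * h) ^ p).natDegree < d := by
    refine lt_of_le_of_lt natDegree_pow_le (lt_of_le_of_lt (Nat.mul_le_mul_left _ ?_) hmd)
    refine natDegree_mul_le.trans (Nat.add_le_add_left ?_ _)
    exact natDegree_le_of_degree_le hh.le
  refine ⟨?_, ?_, ?_⟩
  · exact (natDegree_sub_le _ _).trans (max_le h1 hdeg.le)
  · rw [coeff_sub, h2, coeff_eq_zero_of_natDegree_lt hdeg, sub_zero]
  · have e : y - (W * h) ^ p - r = (y - r) - (W * h) ^ p := by ring
    rw [e]
    exact dvd_sub h3 ((dvd_mul_right W h).trans (dvd_pow_self _ hp.out.ne_zero))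

theorem one_var {f : k[X][X]} {n : ℕ} (hn : f.natDegree = n) (hn1 : n ≠ 0)
    (hu : IsUnit f.leadingCoeff) (hr : resultant f (derivative f) n (n - 1) ≠ 0) (d : ℕ) (c : k)
    (W r : k[X]) (C' N m : ℕ)
    (hdeg : ∀ δ : k[X], δ.natDegree ≤ d → (resultant f (Ed f δ) n n).natDegree ≤ C' * N)
    (hm : m ≤ N) (hmd : p * (W.natDegree + m) < d) :
    Nat.card k ^ m * ((cls_finite d c W r).toFinset.filter (Bv N W f)).card ≤
      (cls_finite d c W r).toFinset.card * (C' * n) +
        (n * Nat.card k ^ (d / p + 1)) * Nat.card k ^ m := by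
  set S := (cls_finite d c W r).toFinset with hS
  obtain ⟨hH1, hH2⟩ := lt_ncard (k := k) m
  set H := hH2.toFinset with hH
  have hHc : H.card = Nat.card k ^ m := by
    rw [← hH1, Set.ncard_eq_toFinset_card _ hH2]
  have hHm : ∀ h ∈ H, h.degree < m := by
    intro h hh
    rw [hH, Set.Finite.mem_toFinset] at hh
    exact hh
  have hf0 : f ≠ 0 := by
    rintro rfl
    apply hn1
    rw [← hn, natDegree_zero]
  -- double counting
  have s1 : ∀ h ∈ H, (S.filter (Bv N W f)).card ≤
      (S.filter fun y => Bv N W f (y + (W * h) ^ p)).card := by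
    intro h hh
    refine Finset.card_le_card_of_injOn (fun y => y - (W * h) ^ p) ?_ ?_
    · intro y hy
      rw [Finset.mem_coe, Finset.mem_filter, hS, Set.Finite.mem_toFinset] at hy
      rw [Finset.mem_coe, Finset.mem_filter, hS, Set.Finite.mem_toFinset]
      refine ⟨shift_mem' p hy.1 (hHm h hh) hmd, ?_⟩
      rw [sub_add_cancel]
      exact hy.2
    · intro y _ y' _ e
      exact sub_left_injective e
  have s2 : H.card * (S.filter (Bv N W f)).card ≤
      ∑ h ∈ H, (S.filter fun y => Bv N W f (y + (W * h) ^ p)).card := by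
    rw [← smul_eq_mul, ← Finset.sum_const]
    exact Finset.sum_le_sum s1
  have s3 : ∑ h ∈ H, (S.filter fun y => Bv N W f (y + (W * h) ^ p)).card =
      ∑ y ∈ S, (H.filter fun h => Bv N W f (y + (W * h) ^ p)).card := by
    simp only [Finset.card_filter]
    exact Finset.sum_comm
  -- one value of `y`
  have s4 : ∀ y ∈ S, (H.filter fun h => Bv N W f (y + (W * h) ^ p)).card ≤
      C' * n + (if resultant f (Ed f (derivative y)) n n = 0 then Nat.card k ^ m else 0) := by
    intro y hy
    rw [hS, Set.Finite.mem_toFinset] at hy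
    split_ifs with h0
    · refine (Finset.card_filter_le _ _).trans ?_
      rw [hHc]
      exact Nat.le_add_left _ _
    · rw [add_zero]
      obtain ⟨T, hT1, hT2⟩ := prime_bound h0 (hdeg (derivative y)
        ((natDegree_derivative_le y).trans ((Nat.sub_le _ _).trans hy.1)))
      have hsub : (H.filter fun h => Bv N W f (y + (W * h) ^ p)) ⊆
          (T.filter fun Q => Irreducible Q ∧ N < Q.natDegree ∧ ¬ Q ∣ W).biUnion
            (fun Q => H.filter fun h => Q ∣ f.eval (y + (W * h) ^ p)) := by
        intro h hh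
        rw [Finset.mem_filter] at hh
        obtain ⟨hh1, P, hP, hPN, hPW, hPd⟩ := hh
        obtain ⟨e1, e2⟩ := dvd_pair hPd
        rw [der_shift] at e2
        have e3 : P ∣ resultant f (Ed f (derivative y)) n n :=
          dvd_res hn.le ((Ed_natDegree f _).trans hn.le) (Or.inl hn1) e1 e2
        obtain ⟨Q, hQT, hPQ⟩ := hT2 P hP hPN e3
        rw [Finset.mem_biUnion]
        refine ⟨Q, ?_, ?_⟩
        · rw [Finset.mem_filter]
          refine ⟨hQT, (hPQ.irreducible_iff).1 hP, ?_, fun h => hPW (hPQ.dvd.trans h)⟩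
          rwa [← natDegree_eq_of_degree_eq (degree_eq_degree_of_associated hPQ)]
        · rw [Finset.mem_filter]
          exact ⟨hh1, hPQ.symm.dvd.trans e1⟩
      refine (Finset.card_le_card hsub).trans (Finset.card_biUnion_le.trans ?_)
      refine (Finset.sum_le_card_nsmul _ _ n ?_).trans ?_
      · intro Q hQ
        rw [Finset.mem_filter] at hQ
        obtain ⟨_, hQ1, hQ2, hQ3⟩ := hQ
        exact root_bound p hn hu hQ1 hQ3 (m := m) (by omega) H hHm
      · rw [smul_eq_mul]
        exact Nat.mul_le_mul_right _ ((Finset.card_filter_le _ _).trans hT1)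
  have s5 : ∑ y ∈ S, (H.filter fun h => Bv N W f (y + (W * h) ^ p)).card ≤
      S.card * (C' * n) + (S.filter fun y => resultant f (Ed f (derivative y)) n n = 0).card *
        Nat.card k ^ m := by
    refine (Finset.sum_le_sum s4).trans (le_of_eq ?_)
    rw [Finset.sum_add_distrib, Finset.sum_const, smul_eq_mul, ← Finset.sum_filter,
      Finset.sum_const, smul_eq_mul]
  have s6 : (S.filter fun y => resultant f (Ed f (derivative y)) n n = 0).card ≤
      n * Nat.card k ^ (d / p + 1) := by
    obtain ⟨b1, b2⟩ := bad_delta hn hf0 hr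
    have h1 := Finset.card_le_mul_card_image (f := fun y : k[X] => derivative y)
      (S.filter fun y => resultant f (Ed f (derivative y)) n n = 0) (Nat.card k ^ (d / p + 1)) (by
        intro δ _
        refine der_fib p d δ _ ?_
        intro y hy
        rw [Finset.mem_filter, Finset.mem_filter, hS, Set.Finite.mem_toFinset] at hy
        exact ⟨hy.1.1.1, hy.2⟩)
    refine h1.trans ?_
    rw [mul_comm]
    refine Nat.mul_le_mul_right _ (le_trans ?_ b2)
    rw [Set.ncard_eq_toFinset_card _ b1]
    refine Finset.card_le_card ?_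
    intro δ hδ
    rw [Finset.mem_image] at hδ
    obtain ⟨y, hy, rfl⟩ := hδ
    rw [Finset.mem_filter] at hy
    rw [Set.Finite.mem_toFinset]
    exact hy.2
  rw [hHc, s3] at s2
  exact s2.trans (s5.trans (Nat.add_le_add_left (Nat.mul_le_mul_right _ s6) _))

end one

/-- counting along one coordinate -/
theorem fib_count {ι α : Type} [Fintype ι] [DecidableEq ι] [DecidableEq α] (S : ι → Finset α)
    (i : ι) (B : Finset (ι → α)) (hB : B ⊆ Fintype.piFinset S) (M : ℕ)
    (h : ∀ a ∈ Fintype.piFinset S, ((S i).filter fun y => Function.update a i y ∈ B).card ≤ M) :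
    B.card * (S i).card ≤ M * (Fintype.piFinset S).card := by
  have h1 : (B ×ˢ S i).card ≤
      ((Fintype.piFinset S ×ˢ S i).filter fun x => Function.update x.1 i x.2 ∈ B).card := by
    refine Finset.card_le_card_of_injOn (fun x => (Function.update x.1 i x.2, x.1 i)) ?_ ?_
    · rintro ⟨b, y⟩ hx
      rw [Finset.mem_coe, Finset.mem_product] at hx
      obtain ⟨hb, hy⟩ := hx
      have hb' := Fintype.mem_piFinset.1 (hB hb)
      rw [Finset.mem_coe, Finset.mem_filter, Finset.mem_product]
      simp only at hb hy hb' ⊢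
      refine ⟨⟨?_, hb' i⟩, ?_⟩
      · rw [Fintype.mem_piFinset]
        intro j
        by_cases hj : j = i
        · subst hj
          rw [Function.update_self]
          exact hy
        · rw [Function.update_of_ne hj]
          exact hb' j
      · rw [Function.update_idem, Function.update_eq_self]
        exact hb
    · rintro ⟨b, y⟩ _ ⟨b', y'⟩ _ e
      simp only [Prod.mk.injEq] at e
      obtain ⟨e1, e2⟩ := e
      have e3 : y = y' := by
        have := congrFun e1 i
        rwa [Function.update_self, Function.update_self] at this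
      have e4 : b = b' := by
        funext j
        by_cases hj : j = i
        · subst hj; exact e2
        · have := congrFun e1 j
          rwa [Function.update_of_ne hj, Function.update_of_ne hj] at this
      rw [e3, e4]
  rw [Finset.card_product] at h1
  refine h1.trans ?_
  rw [Finset.card_filter, Finset.sum_product, mul_comm, ← smul_eq_mul, ← Finset.sum_const]
  refine Finset.sum_le_sum fun a ha => ?_
  rw [← Finset.card_filter]
  exact h a ha

end Pool.Agent.N539.PJ
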